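import Pool.Agent.H20.G.R_pool_sql_team_seeded_63374d34.N684.BK.Stm

/-!
# Random complete intersections (RCI of project BK)
-/

set_option autoImplicit false

open MvPolynomial Filter
open scoped ENNReal

namespace Pool.Agent.N136.BK.RCI

open Pool.Agent.N684.BK

theorem card_sub_le {α ι : Type} [Finite α] (s : Finset ι) (p : α → Prop) (q : ι → α → Prop)
    (h : ∀ a, p a → ∃ i ∈ s, q i a) :
    Nat.card {a // p a} ≤ ∑ i ∈ s, Nat.card {a // q i a} := by
  classical
  have := Fintype.ofFinite α
  simp only [Nat.card_eq_fintype_card, Fintype.card_subtype]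
  refine le_trans (Finset.card_le_card ?_) Finset.card_biUnion_le
  intro a ha
  rw [Finset.mem_filter] at ha
  obtain ⟨i, hi, hq⟩ := h a ha.2
  rw [Finset.mem_biUnion]
  exact ⟨i, hi, by rw [Finset.mem_filter]; exact ⟨Finset.mem_univ _, hq⟩⟩

theorem slice {k : ℕ} (α : Fin (k + 1) → Type) [∀ i, Finite (α i)] [Fintype (α 0)]
    (p : (∀ i, α i) → Prop) :
    Nat.card {w : ∀ i, α i // p w} =
      ∑ u : α 0, Nat.card {w : ∀ i : Fin k, α i.succ // p (Fin.cons u w)} := by
  rw [← Nat.card_sigma]
  apply Nat.card_congr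
  refine Equiv.trans ?_ (Equiv.subtypeProdEquivSigmaSubtype
    (fun (u : α 0) (w : ∀ i : Fin k, α i.succ) => p (Fin.cons u w)))
  exact ((Fin.consEquiv α).symm.subtypeEquiv (by
    intro w
    simp [Fin.consEquiv, Fin.cons_self_tail]))

section

variable {F : Type} [Field F] {N : ℕ}

theorem fin_PW [Finite F] (wt : Fin N → ℕ) (hwt : ∀ i, 1 ≤ wt i) (K : ℕ) :
    Module.Finite F (PW F wt K) := by
  have h1 : Set.Finite {m : Fin N →₀ ℕ | wd wt m ≤ K} := by
    apply Set.Finite.subset (Set.finite_Iic (Finsupp.equivFunOnFinite.symm (fun _ : Fin N => K)))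
    intro m hm
    rw [Set.mem_Iic]
    intro i
    simp only [Finsupp.equivFunOnFinite_symm_apply_apply]
    have h2 : wd wt m ≤ K := hm
    have h3 : wt i * m i ≤ wd wt m :=
      Finset.single_le_sum (f := fun i => wt i * m i) (fun _ _ => Nat.zero_le _)
        (Finset.mem_univ i)
    have h4 : m i ≤ wt i * m i := Nat.le_mul_of_pos_left _ (hwt i)
    omega
  have := h1.to_subtype
  exact Module.Finite.of_basis (basisRestrictSupport F {m : Fin N →₀ ℕ | wd wt m ≤ K})

theorem fin_sub [Finite F] (wt : Fin N → ℕ) (hwt : ∀ i, 1 ≤ wt i) (K : ℕ)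
    (U : Submodule F (MvPolynomial (Fin N) F)) (hU : U ≤ PW F wt K) : Module.Finite F U := by
  have := fin_PW (F := F) wt hwt K
  exact Submodule.finiteDimensional_of_le hU

theorem fin_U [Finite F] (wt : Fin N → ℕ) (hwt : ∀ i, 1 ≤ wt i) (K : ℕ)
    (U : Submodule F (MvPolynomial (Fin N) F)) (hU : U ≤ PW F wt K) : Finite U := by
  have := fin_sub wt hwt K U hU
  exact Module.finite_of_finite F

end

/-- the constants -/
def cst (M d₀ : ℕ) : ℕ → ℕ
  | 0 => 0
  | k + 1 => M ^ (k + 1) + d₀ * cst M d₀ k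

theorem van_of_le {F : Type} [Field F] {N : ℕ} {Q : Ideal (MvPolynomial (Fin N) F)}
    {y : Fin N → F} (h : Q ≤ RingHom.ker (eval y)) : Van Q y := fun p hp => h hp

theorem ncard_zero_le {F : Type} [Field F] [Fintype F] {N : ℕ}
    (P : Ideal (MvPolynomial (Fin N) F)) (u : MvPolynomial (Fin N) F)
    (s : Finset (Ideal (MvPolynomial (Fin N) F)))
    (hs : ∀ Q, Q ∈ s ↔ Q ∈ (P ⊔ Ideal.span {u}).minimalPrimes) {k : ℕ}
    (w : Fin k → MvPolynomial (Fin N) F) :
    Set.ncard {y : Fin N → F | Van P y ∧ eval y u = 0 ∧ ∀ i, eval y (w i) = 0} ≤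
      ∑ Q ∈ s, Set.ncard {y : Fin N → F | Van Q y ∧ ∀ i, eval y (w i) = 0} := by
  classical
  have key : ∀ p : (Fin N → F) → Prop, Set.ncard {y | p y} = Nat.card {y // p y} := by
    intro p
    rfl
  simp only [key]
  apply card_sub_le s
  rintro y ⟨h1, h2, h3⟩
  have h4 : P ⊔ Ideal.span {u} ≤ RingHom.ker (eval y) := by
    apply sup_le
    · intro p hp
      exact h1 p hp
    · rw [Ideal.span_singleton_le_iff_mem]
      exact h2
  have : (RingHom.ker (eval y)).IsPrime := RingHom.ker_isPrime _
  obtain ⟨Q, hQ, hQy⟩ := Ideal.exists_minimalPrimes_le h4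
  exact ⟨Q, (hs Q).2 hQ, van_of_le hQy, h3⟩

theorem card_mem_le {F : Type} [Field F] [Fintype F] {N : ℕ}
    (U : Submodule F (MvPolynomial (Fin N) F)) [Module.Finite F U]
    (P : Ideal (MvPolynomial (Fin N) F)) (h : ℕ) (hc : Cd U P h) :
    Fintype.card F ^ h * Nat.card {u : U // (u : MvPolynomial (Fin N) F) ∈ P} ≤ Nat.card U := by
  have e : Nat.card {u : U // (u : MvPolynomial (Fin N) F) ∈ P} =
      Nat.card ↥(U ⊓ P.restrictScalars F) := by
    apply Nat.card_congr
    refine ⟨fun x => ⟨x.1.1, x.1.2, x.2⟩, fun x => ⟨⟨x.1, x.2.1⟩, x.2.2⟩, ?_, ?_⟩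
    · intro x
      rfl
    · intro x
      rfl
  have : Module.Finite F ↥(U ⊓ P.restrictScalars F) :=
    Submodule.finiteDimensional_of_le (inf_le_left : U ⊓ P.restrictScalars F ≤ U)
  rw [e, Module.natCard_eq_pow_finrank (K := F) (V := ↥(U ⊓ P.restrictScalars F)),
    Module.natCard_eq_pow_finrank (K := F) (V := U), Nat.card_eq_fintype_card, ← pow_add]
  exact Nat.pow_le_pow_right Fintype.card_pos hc

theorem main (hDIM : S_DIM) (_hMONO : S_MONO) (hBEZ : S_BEZ) (hLOW : S_LOW) (hPT : S_PT) :
    S_RCI := by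
  classical
  intro N M d₀
  refine ⟨cst M d₀, ?_⟩
  intro F _ _ wt hwt k
  induction k with
  | zero =>
    intro h P hP hdim U d hU hd B hB
    have h1 : 1 ≤ Deg wt 0 P := by
      have := hLOW F N M wt hwt P hP
      rw [hdim, pow_zero, one_mul] at this
      exact this
    have h2 : IsEmpty {w : ∀ i, U i // ¬ B w ∧
        Deg wt 0 P * ∏ i, (d i : ℝ≥0∞) < (Set.ncard {y : Fin N → F | Van P y ∧
          ∀ i, eval y (w i : MvPolynomial (Fin N) F) = 0} : ℝ≥0∞)} := by
      refine ⟨fun w => ?_⟩
      obtain ⟨w, hwB, h3⟩ := w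
      rw [Finset.univ_eq_empty, Finset.prod_empty, mul_one] at h3
      have h4 : Set.ncard {y : Fin N → F | Van P y ∧
          ∀ i, eval y (w i : MvPolynomial (Fin N) F) = 0} ≤ 1 := by
        rw [Set.ncard_le_one_iff]
        intro a b ha hb
        exact hPT F N P a b hP hdim ha.1 hb.1
      have h5 : (Set.ncard {y : Fin N → F | Van P y ∧
          ∀ i, eval y (w i : MvPolynomial (Fin N) F) = 0} : ℝ≥0∞) ≤ 1 := by
        exact_mod_cast h4
      exact absurd (lt_of_lt_of_le h3 h5) (not_lt.2 h1)
    rw [Nat.card_of_isEmpty]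
    simp
  | succ k ih =>
    intro h P hP hdim U d hU hd B hB
    have hwt1 : ∀ i, 1 ≤ wt i := fun i => (hwt i).1
    have : ∀ i, Module.Finite F (U i) := fun i => fin_sub wt hwt1 _ _ (hU i)
    have : ∀ i, Finite (U i) := fun i => fin_U wt hwt1 _ _ (hU i)
    have : Fintype (U 0) := Fintype.ofFinite _
    by_cases hC : Cd (U 0) P h
    swap
    · have h2 : IsEmpty {w : ∀ i, U i // ¬ B w ∧
          Deg wt (k + 1) P * ∏ i, (d i : ℝ≥0∞) < (Set.ncard {y : Fin N → F | Van P y ∧
            ∀ i, eval y (w i : MvPolynomial (Fin N) F) = 0} : ℝ≥0∞)} := by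
        refine ⟨fun w => ?_⟩
        have h3 := hB w.1 w.2.1 0 P hP le_rfl (fun l hl => absurd hl (Fin.not_lt_zero l))
          (by rw [hdim]; rfl)
        rcases h3 with h3 | h3
        · exact hC h3
        · have h4 : {y : Fin N → F | Van P y ∧
            ∀ i, eval y (w.1 i : MvPolynomial (Fin N) F) = 0} = ∅ := by
            ext y
            simp only [Set.mem_setOf_eq, Set.mem_empty_iff_false, iff_false, not_and]
            intro hy
            exact absurd hy (h3 y)
          have h5 := w.2.2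
          rw [h4, Set.ncard_empty, Nat.cast_zero] at h5
          exact absurd h5 not_lt_zero
      rw [Nat.card_of_isEmpty]
      simp
    · set D : ℝ≥0∞ := Deg wt (k + 1) P with hD
      set T : ℝ≥0∞ := ∏ i : Fin k, (Nat.card (U i.succ) : ℝ≥0∞) with hT
      set q : ℝ≥0∞ := (Fintype.card F : ℝ≥0∞) with hq
      have hprod : ∏ i, (Nat.card (U i) : ℝ≥0∞) = (Nat.card (U 0) : ℝ≥0∞) * T := by
        rw [Fin.prod_univ_succ]
      have hone : 1 ≤ (M : ℝ≥0∞) ^ (k + 1) * D := by
        have := hLOW F N M wt hwt P hP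
        rw [hdim] at this
        exact this
      -- the slices
      have hsl : ∀ u : U 0, q ^ h * (Nat.card {w' : ∀ i : Fin k, U i.succ //
          ¬ B (Fin.cons (α := fun i => ↥(U i)) u w') ∧
          D * ∏ i, (d i : ℝ≥0∞) < (Set.ncard {y : Fin N → F | Van P y ∧
            ∀ i, eval y ((Fin.cons (α := fun i => ↥(U i)) u w' : ∀ i, U i) i :
              MvPolynomial (Fin N) F) = 0} : ℝ≥0∞)} : ℝ≥0∞) ≤
          (if (u : MvPolynomial (Fin N) F) ∈ P then q ^ h * T else 0) +
            (d₀ * cst M d₀ k : ℕ) * D * T := by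
        intro u
        by_cases hu : (u : MvPolynomial (Fin N) F) ∈ P
        · rw [if_pos hu]
          refine le_trans ?_ le_self_add
          gcongr
          rw [hT, show ∏ i : Fin k, (Nat.card (U i.succ) : ℝ≥0∞) =
            ((Nat.card (∀ i : Fin k, U i.succ) : ℕ) : ℝ≥0∞) by rw [Nat.card_pi, Nat.cast_prod]]
          have := Finite.card_subtype_le (fun w' : ∀ i : Fin k, U i.succ =>
            ¬ B (Fin.cons (α := fun i => ↥(U i)) u w') ∧
              D * ∏ i, (d i : ℝ≥0∞) < (Set.ncard {y : Fin N → F | Van P y ∧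
                ∀ i, eval y ((Fin.cons (α := fun i => ↥(U i)) u w' : ∀ i, U i) i :
                  MvPolynomial (Fin N) F) = 0} : ℝ≥0∞))
          exact_mod_cast this
        · rw [if_neg hu, zero_add]
          set I := P ⊔ Ideal.span {(u : MvPolynomial (Fin N) F)} with hI
          have hfin : I.minimalPrimes.Finite :=
            Ideal.finite_minimalPrimes_of_isNoetherianRing _ I
          set s := hfin.toFinset with hs
          have hmem : ∀ Q, Q ∈ s ↔ Q ∈ I.minimalPrimes := fun Q => by
            rw [hs, Set.Finite.mem_toFinset]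
          have hQ1 : ∀ Q ∈ s, Q.IsPrime ∧ P ≤ Q ∧ (u : MvPolynomial (Fin N) F) ∈ Q := by
            intro Q hQ
            have h1 := ((hmem Q).1 hQ).1
            refine ⟨h1.1, le_sup_left.trans h1.2, h1.2 ?_⟩
            exact Ideal.mem_sup_right (Ideal.mem_span_singleton_self _)
          have hQ2 : ∀ Q ∈ s, ∀ Q' ∈ s, Q ≤ Q' → Q = Q' := by
            intro Q hQ Q' hQ' hle
            exact le_antisymm hle (((hmem Q').1 hQ').2 ((hmem Q).1 hQ).1 hle)
          have hQ3 : ∀ Q ∈ s, dimQ Q = k := by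
            intro Q hQ
            have := hDIM F N P Q u hP hu ((hmem Q).1 hQ)
            omega
          have hbez : ∑ Q ∈ s, Deg wt k Q ≤ (d 0 : ℝ≥0∞) * D :=
            hBEZ F N wt hwt1 k (d 0) P u s hP hu (hU 0 u.2) (hd 0).1 hQ1 hQ2
          -- the bad sets
          have hcov : ∀ w' : ∀ i : Fin k, U i.succ,
              (¬ B (Fin.cons (α := fun i => ↥(U i)) u w') ∧
              D * ∏ i, (d i : ℝ≥0∞) < (Set.ncard {y : Fin N → F | Van P y ∧
                ∀ i, eval y ((Fin.cons (α := fun i => ↥(U i)) u w' : ∀ i, U i) i :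
                  MvPolynomial (Fin N) F) = 0} : ℝ≥0∞)) →
              ∃ Q ∈ s, ¬ B (Fin.cons (α := fun i => ↥(U i)) u w') ∧
                Deg wt k Q * ∏ i : Fin k, (d i.succ : ℝ≥0∞) < (Set.ncard {y : Fin N → F |
                  Van Q y ∧ ∀ i, eval y (w' i : MvPolynomial (Fin N) F) = 0} : ℝ≥0∞) := by
            intro w' hw'
            by_contra hcon
            push Not at hcon
            have h1 : ∀ Q ∈ s, (Set.ncard {y : Fin N → F |
                  Van Q y ∧ ∀ i, eval y (w' i : MvPolynomial (Fin N) F) = 0} : ℝ≥0∞) ≤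
                  Deg wt k Q * ∏ i : Fin k, (d i.succ : ℝ≥0∞) :=
              fun Q hQ => hcon Q hQ hw'.1
            have h2 := ncard_zero_le P (u : MvPolynomial (Fin N) F) s hmem
              (fun i => (w' i : MvPolynomial (Fin N) F))
            have h3 : {y : Fin N → F | Van P y ∧
                ∀ i, eval y ((Fin.cons (α := fun i => ↥(U i)) u w' : ∀ i, U i) i :
                  MvPolynomial (Fin N) F) = 0} =
                {y : Fin N → F | Van P y ∧ eval y (u : MvPolynomial (Fin N) F) = 0 ∧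
                  ∀ i, eval y (w' i : MvPolynomial (Fin N) F) = 0} := by
              ext y
              simp only [Set.mem_setOf_eq]
              rw [Fin.forall_fin_succ]
              simp only [Fin.cons_zero, Fin.cons_succ]
            have h4 := hw'.2
            rw [h3] at h4
            have h5 : (Set.ncard {y : Fin N → F | Van P y ∧ eval y (u : MvPolynomial (Fin N) F) = 0 ∧
                  ∀ i, eval y (w' i : MvPolynomial (Fin N) F) = 0} : ℝ≥0∞) ≤
                D * ∏ i, (d i : ℝ≥0∞) := by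
              calc (Set.ncard {y : Fin N → F | Van P y ∧ eval y (u : MvPolynomial (Fin N) F) = 0 ∧
                    ∀ i, eval y (w' i : MvPolynomial (Fin N) F) = 0} : ℝ≥0∞)
                  ≤ ((∑ Q ∈ s, Set.ncard {y : Fin N → F | Van Q y ∧
                    ∀ i, eval y (w' i : MvPolynomial (Fin N) F) = 0} : ℕ) : ℝ≥0∞) := by
                    exact_mod_cast h2
                _ = ∑ Q ∈ s, (Set.ncard {y : Fin N → F | Van Q y ∧
                    ∀ i, eval y (w' i : MvPolynomial (Fin N) F) = 0} : ℝ≥0∞) := by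
                    rw [Nat.cast_sum]
                _ ≤ ∑ Q ∈ s, Deg wt k Q * ∏ i : Fin k, (d i.succ : ℝ≥0∞) :=
                    Finset.sum_le_sum h1
                _ = (∑ Q ∈ s, Deg wt k Q) * ∏ i : Fin k, (d i.succ : ℝ≥0∞) := by
                    rw [Finset.sum_mul]
                _ ≤ ((d 0 : ℝ≥0∞) * D) * ∏ i : Fin k, (d i.succ : ℝ≥0∞) := by
                    gcongr
                _ = D * ∏ i, (d i : ℝ≥0∞) := by
                    rw [Fin.prod_univ_succ]
                    ring
            exact absurd h4 (not_lt.2 h5)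
          have hcard := card_sub_le s _ (fun Q (w' : ∀ i : Fin k, U i.succ) =>
            ¬ B (Fin.cons (α := fun i => ↥(U i)) u w') ∧
                Deg wt k Q * ∏ i : Fin k, (d i.succ : ℝ≥0∞) < (Set.ncard {y : Fin N → F |
                  Van Q y ∧ ∀ i, eval y (w' i : MvPolynomial (Fin N) F) = 0} : ℝ≥0∞)) hcov
          have hih : ∀ Q ∈ s, q ^ h * (Nat.card {w' : ∀ i : Fin k, U i.succ //
              ¬ B (Fin.cons (α := fun i => ↥(U i)) u w') ∧
                Deg wt k Q * ∏ i : Fin k, (d i.succ : ℝ≥0∞) < (Set.ncard {y : Fin N → F |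
                  Van Q y ∧ ∀ i, eval y (w' i : MvPolynomial (Fin N) F) = 0} : ℝ≥0∞)} : ℝ≥0∞) ≤
              cst M d₀ k * Deg wt k Q * T := by
            intro Q hQ
            apply ih h Q (hQ1 Q hQ).1 (hQ3 Q hQ) (fun i => U i.succ) (fun i => d i.succ)
              (fun i => hU i.succ) (fun i => hd i.succ)
              (fun w' => B (Fin.cons (α := fun i => ↥(U i)) u w'))
            intro w' hw' i Q' hQ'p hQQ' hpre hdim'
            apply hB (Fin.cons (α := fun i => ↥(U i)) u w') hw' i.succ Q' hQ'p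
              ((hQ1 Q hQ).2.1.trans hQQ')
            · intro l
              refine Fin.cases ?_ ?_ l
              · intro _
                rw [Fin.cons_zero]
                exact hQQ' (hQ1 Q hQ).2.2
              · intro l' hl'
                rw [Fin.cons_succ]
                exact hpre l' (Fin.succ_lt_succ_iff.1 hl')
            · rw [Fin.val_succ]
              omega
          calc _ ≤ q ^ h * ((∑ Q ∈ s, Nat.card {w' : ∀ i : Fin k, U i.succ //
              ¬ B (Fin.cons (α := fun i => ↥(U i)) u w') ∧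
                Deg wt k Q * ∏ i : Fin k, (d i.succ : ℝ≥0∞) < (Set.ncard {y : Fin N → F |
                  Van Q y ∧ ∀ i, eval y (w' i : MvPolynomial (Fin N) F) = 0} : ℝ≥0∞)} : ℕ) :
                    ℝ≥0∞) := by
                gcongr
                
            _ = ∑ Q ∈ s, q ^ h * (Nat.card {w' : ∀ i : Fin k, U i.succ //
              ¬ B (Fin.cons (α := fun i => ↥(U i)) u w') ∧
                Deg wt k Q * ∏ i : Fin k, (d i.succ : ℝ≥0∞) < (Set.ncard {y : Fin N → F |
                  Van Q y ∧ ∀ i, eval y (w' i : MvPolynomial (Fin N) F) = 0} : ℝ≥0∞)} :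
                    ℝ≥0∞) := by
                rw [Nat.cast_sum, Finset.mul_sum]
            _ ≤ ∑ Q ∈ s, cst M d₀ k * Deg wt k Q * T := Finset.sum_le_sum hih
            _ = cst M d₀ k * (∑ Q ∈ s, Deg wt k Q) * T := by
                rw [Finset.mul_sum, Finset.sum_mul]
            _ ≤ cst M d₀ k * ((d₀ : ℝ≥0∞) * D) * T := by
                gcongr
                refine hbez.trans ?_
                gcongr
                exact (hd 0).2
            _ = (d₀ * cst M d₀ k : ℕ) * D * T := by
                push_cast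
                ring
      have hmem := card_mem_le (U 0) P h hC
      have hmem' : q ^ h * (Nat.card {u : U 0 // (u : MvPolynomial (Fin N) F) ∈ P} : ℝ≥0∞) ≤
          (Nat.card (U 0) : ℝ≥0∞) := by
        rw [hq]
        exact_mod_cast hmem
      rw [slice (fun i => ↥(U i))]
      rw [Nat.cast_sum, Finset.mul_sum]
      calc _ ≤ ∑ u : U 0, ((if (u : MvPolynomial (Fin N) F) ∈ P then q ^ h * T else 0) +
            (d₀ * cst M d₀ k : ℕ) * D * T) := Finset.sum_le_sum (fun u _ => hsl u)
        _ = (q ^ h * (Nat.card {u : U 0 // (u : MvPolynomial (Fin N) F) ∈ P} : ℝ≥0∞)) * T +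
            (Nat.card (U 0) : ℝ≥0∞) * ((d₀ * cst M d₀ k : ℕ) * D * T) := by
            rw [Finset.sum_add_distrib, Finset.sum_const, Finset.card_univ, nsmul_eq_mul,
              ← Finset.sum_filter, Finset.sum_const, nsmul_eq_mul]
            rw [Nat.card_eq_fintype_card, Nat.card_eq_fintype_card,
              Fintype.card_subtype (fun u : U 0 => (u : MvPolynomial (Fin N) F) ∈ P)]
            ring
        _ ≤ (Nat.card (U 0) : ℝ≥0∞) * T +
            (Nat.card (U 0) : ℝ≥0∞) * ((d₀ * cst M d₀ k : ℕ) * D * T) := by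
            gcongr
        _ = 1 * ((Nat.card (U 0) : ℝ≥0∞) * T) +
            (Nat.card (U 0) : ℝ≥0∞) * ((d₀ * cst M d₀ k : ℕ) * D * T) := by
            rw [one_mul]
        _ ≤ ((M : ℝ≥0∞) ^ (k + 1) * D) * ((Nat.card (U 0) : ℝ≥0∞) * T) +
            (Nat.card (U 0) : ℝ≥0∞) * ((d₀ * cst M d₀ k : ℕ) * D * T) := by
            gcongr
        _ = cst M d₀ (k + 1) * D * ∏ i, (Nat.card (U i) : ℝ≥0∞) := by
            rw [hprod]
            have : cst M d₀ (k + 1) = M ^ (k + 1) + d₀ * cst M d₀ k := rfl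
            rw [this]
            push_cast
            ring

end Pool.Agent.N136.BK.RCI
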